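import Mathlib

/-!
# MP_c0e3d8: morphisms generating quasiperiodic words are weakly quasiperiodic

If `f(a)` is not a power of `a` and `f` generates from `a` a quasiperiodic infinite word, then some
non-quasiperiodic infinite word is mapped by `f` to a quasiperiodic infinite word.
-/

set_option autoImplicit false

namespace Pool.Agent.Results.MP_c0e3d8_co.WeaklyQuasi

variable {A : Type}

/-- The finite word `x` occurs in the infinite word `w` at position `q`. -/
def OccursAt (x : List A) (w : ℕ → A) (q : ℕ) : Prop :=
  ∀ j (h : j < x.length), x[j] = w (q + j)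

/-- Every position of `w` lies inside some occurrence of `x`. -/
def Covers (x : List A) (w : ℕ → A) : Prop :=
  ∀ i, ∃ q, q ≤ i ∧ i < q + x.length ∧ OccursAt x w q

/-- The infinite word `w` is quasiperiodic. -/
def Quasiperiodic (w : ℕ → A) : Prop := ∃ x : List A, Covers x w

/-- The morphism `f` on finite words. -/
def ext (f : A → List A) (w : List A) : List A := w.flatMap f

/-- The infinite word `v` is the image `f(w) = f(w_0) f(w_1) f(w_2) ...` of the infinite word `w`:
every `f(w_0) ... f(w_{n-1})` is an initial segment of `v`, and their lengths are unbounded. -/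
def IsImage (f : A → List A) (w v : ℕ → A) : Prop :=
  (∀ n, OccursAt (ext f ((List.range n).map w)) v 0) ∧
    ∀ N, ∃ n, N ≤ (ext f ((List.range n).map w)).length

/-- `f` generates the infinite word `u = f^ω(a)`: `f(a)` begins with `a`, the lengths of the words
`f^n(a)` are unbounded and every `f^n(a)` is an initial segment of `u`. -/
def Generates (f : A → List A) (a : A) (u : ℕ → A) : Prop :=
  (∃ v, f a = a :: v) ∧ (∀ N, ∃ n, N ≤ ((ext f)^[n] [a]).length) ∧
    ∀ n, OccursAt ((ext f)^[n] [a]) u 0

/-- `f` is weakly quasiperiodic on infinite words. -/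
def WeaklyQuasiperiodic (f : A → List A) : Prop :=
  ∃ w v : ℕ → A, ¬ Quasiperiodic w ∧ IsImage f w v ∧ Quasiperiodic v

/-! ### Basic facts -/

theorem occ_iff (x : List A) (w : ℕ → A) (q : ℕ) :
    OccursAt x w q ↔ ∀ j, j < x.length → x[j]? = some (w (q + j)) := by
  constructor
  · intro h j hj
    rw [List.getElem?_eq_getElem hj, h j hj]
  · intro h j hj
    have := h j hj
    rw [List.getElem?_eq_getElem hj] at this
    exact Option.some.inj this

theorem occ_left {p q : List A} {w : ℕ → A} {i : ℕ} (h : OccursAt (p ++ q) w i) :
    OccursAt p w i := by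
  rw [occ_iff] at *
  intro j hj
  rw [← h j (by rw [List.length_append]; omega), List.getElem?_append_left hj]

theorem occ_right {p q : List A} {w : ℕ → A} {i : ℕ} (h : OccursAt (p ++ q) w i) :
    OccursAt q w (i + p.length) := by
  rw [occ_iff] at *
  intro j hj
  have := h (p.length + j) (by rw [List.length_append]; omega)
  rw [List.getElem?_append_right (by omega)] at this
  rw [add_assoc, ← this]
  congr 1
  omega

theorem ext_append (f : A → List A) (p q : List A) : ext f (p ++ q) = ext f p ++ ext f q := by
  simp [ext]

theorem iter_append (f : A → List A) (n : ℕ) : ∀ p q : List A,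
    (ext f)^[n] (p ++ q) = (ext f)^[n] p ++ (ext f)^[n] q := by
  induction n with
  | zero => intro p q; rfl
  | succ n ih =>
    intro p q
    rw [Function.iterate_succ_apply, Function.iterate_succ_apply, Function.iterate_succ_apply,
      ext_append, ih]

theorem iter_head (f : A → List A) (a : A) (v : List A) (hf : f a = a :: v) (n : ℕ) :
    ∀ p : List A, ∃ t, (ext f)^[n] (a :: p) = a :: t := by
  induction n with
  | zero => intro p; exact ⟨p, rfl⟩
  | succ n ih =>
    intro p
    rw [Function.iterate_succ_apply]
    have : ext f (a :: p) = a :: (v ++ ext f p) := by simp [ext, hf]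
    rw [this]
    exact ih _

/-! ### Limits of chains -/

/-- A chain of finite words, each an initial segment of the next. -/
structure Chain (W : ℕ → List A) : Prop where
  step : ∀ n, ∃ t, W (n + 1) = W n ++ t
  long : ∀ n, n ≤ (W n).length

theorem Chain.le {W : ℕ → List A} (h : Chain W) {n m : ℕ} (hnm : n ≤ m) :
    ∃ t, W m = W n ++ t := by
  induction m, hnm using Nat.le_induction with
  | base => exact ⟨[], by simp⟩
  | succ m _ ih =>
    obtain ⟨t, ht⟩ := ih
    obtain ⟨s, hs⟩ := h.step m
    exact ⟨t ++ s, by rw [hs, ht, List.append_assoc]⟩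

/-- The limit of a chain. -/
noncomputable def lim (d : A) (W : ℕ → List A) : ℕ → A := fun i => (W (i + 1)).getD i d

theorem lim_occ (d : A) {W : ℕ → List A} (h : Chain W) (n : ℕ) : OccursAt (W n) (lim d W) 0 := by
  rw [occ_iff]
  intro j hj
  have key : (W n)[j]? = (W (j + 1))[j]? := by
    have hl := h.long (j + 1)
    rcases le_total n (j + 1) with h1 | h1
    · obtain ⟨t, ht⟩ := h.le h1
      rw [ht, List.getElem?_append_left hj]
    · obtain ⟨t, ht⟩ := h.le h1
      rw [ht, List.getElem?_append_left (by omega)]
  have hl := h.long (j + 1)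
  rw [key, zero_add]
  unfold lim
  rw [List.getD_eq_getElem?_getD, List.getElem?_eq_getElem (by omega)]
  rfl

/-- Two initial segments of the same word are comparable. -/
theorem occ_ext {p q : List A} {w : ℕ → A} (hp : OccursAt p w 0) (hq : OccursAt q w 0)
    (h : p.length ≤ q.length) : ∃ t, q = p ++ t := by
  refine ⟨q.drop p.length, ?_⟩
  have : p = q.take p.length := by
    apply List.ext_getElem
    · rw [List.length_take]; omega
    · intro i h1 h2
      rw [List.getElem_take, hp i h1, hq i (by omega)]
  conv_lhs => rw [← List.take_append_drop p.length q]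
  rw [← this]

theorem occ_range (w : ℕ → A) (n : ℕ) : OccursAt ((List.range n).map w) w 0 := by
  intro j hj
  simp

/-- The image of the limit is the limit of the images. -/
theorem isImage_lim (f : A → List A) (d : A) {W : ℕ → List A} (h : Chain W)
    (h' : Chain fun n => ext f (W n)) :
    IsImage f (lim d W) (lim d fun n => ext f (W n)) := by
  constructor
  · intro n
    obtain ⟨t, ht⟩ := occ_ext (occ_range (lim d W) n) (lim_occ d h n) (by
      rw [List.length_map, List.length_range]; exact h.long n)
    have h1 := lim_occ d h' n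
    rw [ht, ext_append] at h1
    exact occ_left h1
  · intro N
    refine ⟨(W N).length, ?_⟩
    obtain ⟨t, ht⟩ := occ_ext (lim_occ d h N) (occ_range (lim d W) (W N).length) (by simp)
    have h1 := h'.long N
    rw [ht, ext_append, List.length_append]
    omega

/-! ### The non-quasiperiodic words -/

/-- `R^k`. -/
def rep (R : List A) : ℕ → List A
  | 0 => []
  | k + 1 => R ++ rep R k

theorem rep_length (R : List A) (k : ℕ) : (rep R k).length = k * R.length := by
  induction k with
  | zero => simp [rep]
  | succ k ih => simp [rep, ih]; ring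

theorem rep_get (R : List A) (k : ℕ) : ∀ j, j < k * R.length →
    (rep R k)[j]? = R[j % R.length]? := by
  induction k with
  | zero => intro j hj; omega
  | succ k ih =>
    intro j hj
    by_cases h : j < R.length
    · rw [rep, List.getElem?_append_left h, Nat.mod_eq_of_lt h]
    · push Not at h
      rw [rep, List.getElem?_append_right h, ih _ (by rw [Nat.add_mul] at hj; omega),
        ← Nat.mod_eq_sub_mod h]

/-- The words `R S R^2 S ... R^n S`. -/
def W (R S : List A) : ℕ → List A
  | 0 => []
  | n + 1 => W R S n ++ (rep R (n + 1) ++ S)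

theorem W_chain (R S : List A) (hS : 0 < S.length) : Chain (W R S) where
  step n := ⟨_, rfl⟩
  long n := by
    induction n with
    | zero => simp
    | succ n ih => rw [W, List.length_append, List.length_append]; omega

/-- The key lemma: `R S R^2 S R^3 S ...` is not quasiperiodic. -/
theorem not_quasi (a : A) (R' S' : List A) (hR : a ∉ R') (hS : a ∉ S')
    (hne : R' ≠ S') (hle : R'.length ≤ S'.length) (w : ℕ → A)
    (hw : ∀ n, OccursAt (W (a :: R') (a :: S') n) w 0) : ¬ Quasiperiodic w := by
  rintro ⟨x, hx⟩
  set R := a :: R' with hRdef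
  set S := a :: S' with hSdef
  have hRl : R.length = R'.length + 1 := by simp [hRdef]
  have hSl : S.length = S'.length + 1 := by simp [hSdef]
  -- positions of `a` in `R` and `S`
  have posR : ∀ j, R[j]? = some a → j = 0 := by
    intro j hj
    rcases j with _ | j
    · rfl
    · exfalso
      simp only [hRdef, List.getElem?_cons_succ] at hj
      exact hR (List.mem_of_getElem? hj)
  have posS : ∀ j, S[j]? = some a → j = 0 := by
    intro j hj
    rcases j with _ | j
    · rfl
    · exfalso
      simp only [hSdef, List.getElem?_cons_succ] at hj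
      exact hS (List.mem_of_getElem? hj)
  have w0 : w 0 = a := by
    have := hw 1
    rw [occ_iff] at this
    have h1 := this 0 (by simp [W, rep, hRdef])
    simp [W, rep, hRdef] at h1
    exact h1.symm
  obtain ⟨q0, hq0, hq0', hocc0⟩ := hx 0
  have hxpos : 0 < x.length := by omega
  have q00 : q0 = 0 := by omega
  subst q00
  have x0 : x[0]? = some a := by
    rw [occ_iff] at hocc0
    rw [hocc0 0 hxpos, add_zero, w0]
  -- `x` is an initial segment of `R^ω`
  have hxR : ∀ j, j < x.length → x[j]? = R[j % R.length]? := by
    set m := 2 * x.length with hm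
    have hwm := occ_right (p := W R S m) (q := rep R (m + 1) ++ S) (hw (m + 1))
    have hwm' := occ_left hwm
    rw [occ_iff] at hwm'
    rw [rep_length, zero_add] at hwm'
    obtain ⟨q, hq1, hq2, hq3⟩ := hx ((W R S m).length + x.length)
    obtain ⟨e, he⟩ := Nat.exists_eq_add_of_le (show (W R S m).length ≤ q by omega)
    rw [occ_iff] at hq3
    have hbig : 2 * x.length < (m + 1) * R.length := by
      rw [hm, hRl]; nlinarith
    have h1 : ∀ j, j < x.length → x[j]? = R[(e + j) % R.length]? := by
      intro j hj
      rw [hq3 j hj, he, add_assoc, ← hwm' (e + j) (by omega), rep_get R (m + 1) _ (by omega)]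
    have h2 : e % R.length = 0 := by
      apply posR
      have := h1 0 hxpos
      rw [add_zero] at this
      rw [← this, x0]
    intro j hj
    rw [h1 j hj, Nat.add_mod, h2, zero_add, Nat.mod_mod]
  -- the first block `S`
  have hw1 := hw 1
  have e1 : W R S 1 = R ++ S := by simp [W, rep]
  rw [e1] at hw1
  have hS1 := occ_right hw1
  rw [zero_add] at hS1
  rw [occ_iff] at hS1
  obtain ⟨q, hq1, hq2, hq3⟩ := hx (R.length + (S.length - 1))
  rw [occ_iff] at hq3
  have wq : w q = a := by
    have := hq3 0 hxpos
    rw [x0, add_zero] at this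
    exact (Option.some.inj this).symm
  have hqle : q ≤ R.length := by
    by_contra hcon
    push Not at hcon
    have h1 := hS1 (q - R.length) (by omega)
    rw [show R.length + (q - R.length) = q by omega, wq] at h1
    have := posS _ h1
    omega
  have h3 : ∀ j, j < S.length → S[j]? = R[(R.length - q + j) % R.length]? := by
    intro j hj
    rw [hS1 j hj, ← hxR _ (by omega), hq3 _ (by omega)]
    congr 2
    omega
  have h4 : (R.length - q) % R.length = 0 := by
    apply posR
    have := h3 0 (by omega)
    rw [add_zero] at this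
    rw [← this]
    simp [hSdef]
  have h5 : ∀ j, j < S.length → S[j]? = R[j % R.length]? := by
    intro j hj
    rw [h3 j hj, Nat.add_mod, h4, zero_add, Nat.mod_mod]
  rcases Nat.lt_or_ge R.length S.length with h6 | h6
  · have := h5 R.length h6
    rw [Nat.mod_self] at this
    have h7 : S[R.length]? = some a := by rw [this]; simp [hRdef]
    have := posS _ h7
    omega
  · apply hne
    have hl : R.length = S.length := by omega
    have : R = S := by
      apply List.ext_getElem?
      intro j
      by_cases hj : j < S.length
      · rw [h5 j hj, Nat.mod_eq_of_lt (by omega)]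
      · rw [List.getElem?_eq_none (by omega), List.getElem?_eq_none (by omega)]
    rw [hRdef, hSdef] at this
    exact (List.cons.inj this).2

/-! ### Covering images -/

/-- `X` occurs in the finite word `l` at position `q`. -/
def OccIn (X l : List A) (q : ℕ) : Prop := ∀ j, j < X.length → l[q + j]? = X[j]?

/-- All positions of `G` are covered by occurrences of `X` inside `G Z`. -/
def Cov (X G Z : List A) : Prop :=
  ∀ s, s < G.length → ∃ q, q ≤ s ∧ s < q + X.length ∧ OccIn X (G ++ Z) q

theorem occIn_append {X l : List A} {q : ℕ} (h : OccIn X l q) (t : List A) :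
    OccIn X (l ++ t) q := by
  intro j hj
  have h1 := h j hj
  rw [List.getElem?_eq_getElem hj] at h1
  obtain ⟨h2, h3⟩ := List.getElem?_eq_some_iff.mp h1
  rw [List.getElem?_append_left h2, h j hj]

theorem cov_append {X P G Z : List A} (hP : Cov X P Z) (hG : Cov X G Z)
    (hZ : ∃ t, G = Z ++ t) : Cov X (P ++ G) Z := by
  intro s hs
  by_cases h : s < P.length
  · obtain ⟨q, h1, h2, h3⟩ := hP s h
    refine ⟨q, h1, h2, ?_⟩
    obtain ⟨t, rfl⟩ := hZ
    have := occIn_append h3 (t ++ Z)
    simpa [List.append_assoc] using this
  · push Not at h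
    rw [List.length_append] at hs
    obtain ⟨q, h1, h2, h3⟩ := hG (s - P.length) (by omega)
    refine ⟨P.length + q, by omega, by omega, ?_⟩
    intro j hj
    rw [List.append_assoc, List.getElem?_append_right (by omega), ← h3 j hj]
    congr 1
    omega

section main

variable (f : A → List A) (n : ℕ) (R S X Z : List A)

theorem cov_rep (hR : Cov X ((ext f)^[n] R) Z) (hRZ : ∃ t, (ext f)^[n] R = Z ++ t) (k : ℕ) :
    ∀ P : List A, Cov X ((ext f)^[n] P) Z → Cov X ((ext f)^[n] (P ++ rep R k)) Z := by
  induction k with
  | zero => intro P hP; simpa [rep] using hP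
  | succ k ih =>
    intro P hP
    rw [rep, ← List.append_assoc]
    apply ih
    rw [iter_append]
    exact cov_append hP hR hRZ

theorem iter_nil : (ext f)^[n] [] = [] := by
  induction n with
  | zero => rfl
  | succ n ih => rw [Function.iterate_succ_apply]; simpa [ext] using ih

theorem cov_W (hR : Cov X ((ext f)^[n] R) Z) (hRZ : ∃ t, (ext f)^[n] R = Z ++ t)
    (hS : Cov X ((ext f)^[n] S) Z) (hSZ : ∃ t, (ext f)^[n] S = Z ++ t) (m : ℕ) :
    Cov X ((ext f)^[n] (W R S m)) Z := by
  induction m with
  | zero =>
    intro s hs
    rw [W, iter_nil] at hs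
    simp at hs
  | succ m ih =>
    rw [W, ← List.append_assoc, iter_append]
    exact cov_append (cov_rep f n R X Z hR hRZ (m + 1) _ ih) hS hSZ

theorem covers_of_cov (hR : Cov X ((ext f)^[n] R) Z) (hRZ : ∃ t, (ext f)^[n] R = Z ++ t)
    (hS : Cov X ((ext f)^[n] S) Z) (hSZ : ∃ t, (ext f)^[n] S = Z ++ t) (v : ℕ → A)
    (hlong : ∀ m, m ≤ ((ext f)^[n] (W R S m)).length)
    (hv : ∀ m, OccursAt ((ext f)^[n] (W R S m)) v 0) : Covers X v := by
  intro i
  obtain ⟨q, h1, h2, h3⟩ := cov_W f n R S X Z hR hRZ hS hSZ (i + 1) i
    (lt_of_lt_of_le (Nat.lt_succ_self i) (hlong (i + 1)))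
  refine ⟨q, h1, h2, ?_⟩
  have h4 := hv (i + 2)
  obtain ⟨t, ht⟩ := hRZ
  have e : (ext f)^[n] (W R S (i + 2)) = ((ext f)^[n] (W R S (i + 1)) ++ Z) ++
      (t ++ (ext f)^[n] (rep R (i + 1)) ++ (ext f)^[n] S) := by
    rw [W, rep, iter_append, iter_append, iter_append, ht]
    simp [List.append_assoc]
  rw [e] at h4
  have h5 := occ_left h4
  rw [occ_iff] at h5 ⊢
  intro j hj
  have h6 := h3 j hj
  rw [List.getElem?_eq_getElem hj] at h6 ⊢
  obtain ⟨h7, h8⟩ := List.getElem?_eq_some_iff.mp h6
  rw [← h6, h5 (q + j) h7, zero_add]

end main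

/-- The main step: two suitable blocks give weak quasiperiodicity. -/
theorem of_blocks (f : A → List A) (a : A) (v : List A) (hf : f a = a :: v) (n : ℕ)
    (R' S' X Z : List A) (hR : a ∉ R') (hS : a ∉ S') (hne : R' ≠ S')
    (hle : R'.length ≤ S'.length)
    (hRc : Cov X ((ext f)^[n] (a :: R')) Z) (hRZ : ∃ t, (ext f)^[n] (a :: R') = Z ++ t)
    (hSc : Cov X ((ext f)^[n] (a :: S')) Z) (hSZ : ∃ t, (ext f)^[n] (a :: S') = Z ++ t) :
    WeaklyQuasiperiodic f := by
  set R := a :: R' with hRdef
  set S := a :: S' with hSdef
  have hch : ∀ i, Chain fun m => (ext f)^[i] (W R S m) := by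
    intro i
    constructor
    · intro m
      exact ⟨_, by rw [W, iter_append]⟩
    · intro m
      induction m with
      | zero => simp
      | succ m ih =>
        have ih' : m ≤ ((ext f)^[i] (W R S m)).length := ih
        show m + 1 ≤ ((ext f)^[i] (W R S (m + 1))).length
        obtain ⟨t, ht⟩ := iter_head f a v hf i S'
        rw [← hSdef] at ht
        rw [W, iter_append, iter_append, ht]
        simp only [List.length_append, List.length_cons]
        omega
  let w : ℕ → (ℕ → A) := fun i => lim a fun m => (ext f)^[i] (W R S m)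
  have himg : ∀ i, IsImage f (w i) (w (i + 1)) := by
    intro i
    have h1 := isImage_lim f a (hch i) (by
      have := hch (i + 1)
      simpa only [Function.iterate_succ_apply'] using this)
    simpa only [w, Function.iterate_succ_apply'] using h1
  have h0 : ¬ Quasiperiodic (w 0) := by
    apply not_quasi a R' S' hR hS hne hle
    intro m
    exact lim_occ a (hch 0) m
  have hn : Quasiperiodic (w n) := by
    refine ⟨X, covers_of_cov f n R S X Z hRc hRZ hSc hSZ (w n) ?_ ?_⟩
    · intro m
      exact (hch n).long m
    · intro m
      exact lim_occ a (hch n) m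
  by_contra hcon
  have : ∀ i, ¬ Quasiperiodic (w i) := by
    intro i
    induction i with
    | zero => exact h0
    | succ i ih =>
      intro hq
      exact hcon ⟨w i, w (i + 1), ih, himg i, hq⟩
  exact this n hn

/-! ### The generated word -/

theorem occ_join {p q : List A} {w : ℕ → A} {i : ℕ} (hp : OccursAt p w i)
    (hq : OccursAt q w (i + p.length)) : OccursAt (p ++ q) w i := by
  rw [occ_iff] at *
  intro j hj
  rw [List.length_append] at hj
  by_cases h : j < p.length
  · rw [List.getElem?_append_left h, hp j h]
  · push Not at h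
    rw [List.getElem?_append_right h, hq _ (by omega)]
    congr 2
    omega

theorem fixed (f : A → List A) (a : A) (u : ℕ → A) (hg : Generates f a u) (n : ℕ) (p : List A)
    (hp : OccursAt p u 0) : OccursAt ((ext f)^[n] p) u 0 := by
  obtain ⟨_, h2, h3⟩ := hg
  obtain ⟨m, hm⟩ := h2 p.length
  obtain ⟨t, ht⟩ := occ_ext hp (h3 m) hm
  have h4 := h3 (n + m)
  rw [Function.iterate_add_apply, ht, iter_append] at h4
  exact occ_left h4

theorem next_return (u : ℕ → A) (a : A) (hinf : ∀ N, ∃ i, N ≤ i ∧ u i = a) (i : ℕ)
    (hi : u i = a) : ∃ R' : List A, a ∉ R' ∧ OccursAt (a :: R' ++ [a]) u i := by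
  classical
  have hex : ∃ k, u (i + 1 + k) = a := by
    obtain ⟨j, hj, hj'⟩ := hinf (i + 1)
    exact ⟨j - (i + 1), by rw [← hj']; congr 1; omega⟩
  refine ⟨(List.range (Nat.find hex)).map fun j => u (i + 1 + j), ?_, ?_⟩
  · intro hmem
    rw [List.mem_map] at hmem
    obtain ⟨k, hk, hk'⟩ := hmem
    rw [List.mem_range] at hk
    exact Nat.find_min hex hk hk'
  · rw [List.cons_append]
    apply occ_join (p := [a])
    · intro j hj
      simp only [List.length_cons, List.length_nil] at hj
      obtain rfl : j = 0 := by omega
      simp [hi]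
    · apply occ_join
      · intro j hj
        simp
      · intro j hj
        simp only [List.length_cons, List.length_nil] at hj
        obtain rfl : j = 0 := by omega
        have := Nat.find_spec hex
        simp [this]

/-- **Q1.** If `f` generates a quasiperiodic infinite word from `a` and `f(a)` is not a power of
`a`, then `f` is weakly quasiperiodic on infinite words. -/
theorem result (A : Type) (f : A → List A) (a : A) (u : ℕ → A) (hg : Generates f a u)
    (hu : Quasiperiodic u) (hpow : ∀ k, f a ≠ List.replicate k a) : WeaklyQuasiperiodic f := by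
  obtain ⟨v, hv⟩ := hg.1
  have hlen := hg.2.1
  have hini := hg.2.2
  have u0 : u 0 = a := by
    have := hini 0 0 (by simp)
    simpa using this.symm
  -- a cover
  obtain ⟨x, hx⟩ := hu
  have hx0 : 0 < x.length ∧ OccursAt x u 0 := by
    obtain ⟨q, h1, h2, h3⟩ := hx 0
    obtain rfl : q = 0 := by omega
    exact ⟨by omega, h3⟩
  obtain ⟨hxpos, hxini⟩ := hx0
  have xa : x[0]? = some a := by
    rw [occ_iff] at hxini
    rw [hxini 0 hxpos, u0]
  have hinf : ∀ N, ∃ i, N ≤ i ∧ u i = a := by
    intro N
    obtain ⟨q, h1, h2, h3⟩ := hx (N + x.length)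
    refine ⟨q, by omega, ?_⟩
    rw [occ_iff] at h3
    have := h3 0 hxpos
    rw [xa, add_zero] at this
    exact (Option.some.inj this).symm
  by_cases hcase : ∃ R' S' : List A, a ∉ R' ∧ a ∉ S' ∧ R' ≠ S' ∧ R'.length ≤ S'.length ∧
      (∃ i, OccursAt (a :: R' ++ [a]) u i) ∧ ∃ i, OccursAt (a :: S' ++ [a]) u i
  · -- two different returns to `a`
    obtain ⟨R', S', hR, hS, hne, hle, hRo, hSo⟩ := hcase
    obtain ⟨n, hn⟩ := hlen x.length
    have key : ∀ T : List A, (∃ i, OccursAt (a :: T ++ [a]) u i) →
        Cov x ((ext f)^[n] (a :: T)) ((ext f)^[n] [a]) := by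
      rintro T ⟨i, hi⟩ s hs
      by_cases hsx : s < x.length
      · refine ⟨0, Nat.zero_le _, by omega, ?_⟩
        obtain ⟨t, ht⟩ := occ_ext hxini (hini n) hn
        have e : (ext f)^[n] (a :: T) = x ++ (t ++ (ext f)^[n] T) := by
          rw [show a :: T = [a] ++ T from rfl, iter_append, ht, List.append_assoc]
        intro j hj
        rw [e, List.append_assoc, zero_add, List.getElem?_append_left hj]
      · push Not at hsx
        have h1 : OccursAt ((List.range i).map u ++ (a :: T ++ [a])) u 0 := by
          apply occ_join (occ_range u i)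
          simpa using hi
        have h2 := fixed f a u hg n _ h1
        rw [iter_append, iter_append] at h2
        set p := (ext f)^[n] ((List.range i).map u) with hp
        have h3 := occ_right h2
        rw [zero_add] at h3
        obtain ⟨q, g1, g2, g3⟩ := hx (p.length + s)
        refine ⟨q - p.length, by omega, by omega, ?_⟩
        rw [occ_iff] at h3 g3
        intro j hj
        rw [g3 j hj, h3 _ (by rw [List.length_append]; omega)]
        congr 2
        omega
    apply of_blocks f a v hv n R' S' x ((ext f)^[n] [a]) hR hS hne hle (key R' hRo) ?_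
      (key S' hSo) ?_
    · exact ⟨(ext f)^[n] R', by rw [← iter_append]; rfl⟩
    · exact ⟨(ext f)^[n] S', by rw [← iter_append]; rfl⟩
  · -- only one return: `u` is periodic
    obtain ⟨y', hy, hy0⟩ := next_return u a hinf 0 u0
    have huniq : ∀ i, u i = a → OccursAt (a :: y' ++ [a]) u i := by
      intro i hi
      obtain ⟨R', hR, hRo⟩ := next_return u a hinf i hi
      have : R' = y' := by
        by_contra hne
        apply hcase
        rcases le_total R'.length y'.length with h | h
        · exact ⟨R', y', hR, hy, hne, h, ⟨i, hRo⟩, ⟨0, hy0⟩⟩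
        · exact ⟨y', R', hy, hR, fun e => hne e.symm, h, ⟨0, hy0⟩, ⟨i, hRo⟩⟩
      rw [← this]
      exact hRo
    set p := y'.length + 1 with hpdef
    have hper0 : ∀ m, u (m * p) = a := by
      intro m
      induction m with
      | zero => simpa using u0
      | succ m ih =>
        have h1 := occ_right (huniq _ ih)
        have h2 := h1 0 (by simp)
        simp only [List.getElem_cons_zero, List.length_cons, add_zero] at h2
        rw [Nat.add_mul, one_mul, hpdef, ← h2]
    have hper : ∀ m j, j < p → u (m * p + j) = u j := by
      intro m j hj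
      have h1 := huniq _ (hper0 m)
      have h2 := h1 j (by simp; omega)
      have h3 := hy0 j (by simp; omega)
      rw [← h2, h3, zero_add]
    have hper' : ∀ m i, u (m * p + i) = u i := by
      intro m i
      have h1 := Nat.div_add_mod i p
      have h2 : i % p < p := Nat.mod_lt _ (by omega)
      have e1 : u i = u (i % p) := by
        conv_lhs => rw [← h1, mul_comm]
        exact hper _ _ h2
      have e2 : m * p + i = (m + i / p) * p + i % p := by
        rw [Nat.add_mul]
        conv_lhs => rw [← h1]
        ring
      rw [e2, hper _ _ h2, e1]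
    have hyne : y' ≠ [] := by
      intro hnil
      apply hpow (f a).length
      have hp1 : p = 1 := by rw [hpdef, hnil]; rfl
      have hall : ∀ i, u i = a := by
        intro i
        have := hper0 i
        rwa [hp1, mul_one] at this
      have h1 := hini 1
      have e : (ext f)^[1] [a] = f a := by simp [ext]
      rw [e] at h1
      rw [List.eq_replicate_iff]
      refine ⟨rfl, ?_⟩
      intro b hb
      obtain ⟨j, hj, rfl⟩ := List.getElem_of_mem hb
      rw [h1 j hj, hall]
    obtain ⟨n, hn⟩ := hlen p
    set Z := (ext f)^[n] [a] with hZ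
    set j0 := Z.length / p with hj0
    set r := Z.length % p with hr
    have hZl : p * j0 + r = Z.length := Nat.div_add_mod _ _
    have hppos : 0 < p := by omega
    have hj0pos : 1 ≤ j0 := (Nat.le_div_iff_mul_le hppos).mpr (by omega)
    obtain ⟨j1, hj1⟩ := Nat.exists_eq_add_of_le hj0pos
    have hrlt : r < p := Nat.mod_lt _ hppos
    have hZ' : Z.length = p * j1 + p + r := by rw [← hZl, hj1]; ring
    let X := (List.range (p + r)).map u
    have hXl : X.length = p + r := by simp [X]
    have hXg : ∀ j, j < p + r → X[j]? = some (u j) := by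
      intro j hj
      simp [X, hj]
    have hZocc : OccursAt Z u 0 := hini n
    have hcov1 : Cov X ((ext f)^[n] [a]) Z := by
      intro s hs
      rw [← hZ] at hs ⊢
      have hs1 := Nat.div_add_mod s p
      have hs2 := Nat.mod_lt s hppos
      have hdm := Nat.div_mul_le_self s p
      have main : ∀ q, q * p + (p + r) ≤ Z.length → OccIn X (Z ++ Z) (q * p) := by
        intro q hq j hj
        rw [hXl] at hj
        rw [List.getElem?_append_left (by omega), hXg j hj]
        rw [occ_iff] at hZocc
        rw [hZocc _ (by omega), zero_add, hper']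
      by_cases h : s / p ≤ j1
      · refine ⟨s / p * p, hdm, by rw [hXl]; nlinarith, main _ ?_⟩
        rw [hZ']
        nlinarith
      · push Not at h
        refine ⟨j1 * p, le_trans (Nat.mul_le_mul_right p h.le) hdm, ?_, main _ ?_⟩
        · rw [hXl]; nlinarith
        · rw [hZ']; nlinarith
    have hcov2 : Cov X ((ext f)^[n] (a :: y')) Z := by
      intro s hs
      have hocc := fixed f a u hg n _ hy0
      rw [iter_append, ← hZ, occ_iff] at hocc
      have hs1 := Nat.div_add_mod s p
      have hs2 := Nat.mod_lt s hppos
      refine ⟨s / p * p, Nat.div_mul_le_self s p, by rw [hXl]; nlinarith, ?_⟩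
      intro j hj
      rw [hXl] at hj
      have hle1 : s / p * p ≤ s := Nat.div_mul_le_self s p
      have hle2 : p ≤ p * j1 + p := by nlinarith
      rw [hocc _ (by rw [List.length_append]; omega), hXg j hj, zero_add, hper']
    apply of_blocks f a v hv n [] y' X Z (by simp) hy (fun e => hyne e.symm) (by simp) hcov1 ?_
      hcov2 ?_
    · exact ⟨[], by rw [List.append_nil]⟩
    · exact ⟨(ext f)^[n] y', by rw [hZ, ← iter_append]; rfl⟩

end Pool.Agent.Results.MP_c0e3d8_co.WeaklyQuasi
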